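import Pool.Agent.H97.PRP.Targets

/-!
# CPA. Capturing subsets of `κ` in the first case (MP_e37c09_lc)
-/

set_option autoImplicit false

open Ordinal Cardinal Order Set
open scoped ZFSet

universe u

namespace Pool.Agent.H12.PRP

open _root_.HD HD.PRK HD.PRP Pool.Agent.H45.NF

/-- `Y` is the part below the union of `w` of a set which is given by `R` and an element of `Z` -/
private def Cp (Z R w Y : ZFSet.{u}) : Prop :=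
  ∃ x1 ∈ Z, ∃ X1, (∀ z, ZFSet.pair x1 z ∈ R ↔ z = X1) ∧ ∀ z, z ∈ Y ↔ z ∈ X1 ∧ ∃ b ∈ w, z ∈ b

private theorem cp_dz {Z R : ZFSet.{u}} (hZ : OD Z) (hR : OD R) :
    DZ.{u} fun v => ∃ w Y, v 0 = ZFSet.pair w Y ∧ Cp Z R w Y := by
  refine DZ.ex (R := fun w v => ∃ Y, v 0 = ZFSet.pair w Y ∧ Cp Z R w Y) ?_
  refine DZ.ex (R := fun Y v => v 1 = ZFSet.pair (v 0) Y ∧ Cp Z R (v 0) Y) ?_
  refine (loc_pair 2 1 0).dz.and ?_
  refine DZ.od (R := fun Z' v => Cp Z' R (v 1) (v 0)) hZ ?_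
  refine DZ.exMem (R := fun x1 v => ∃ X1, (∀ z, ZFSet.pair x1 z ∈ R ↔ z = X1) ∧
    ∀ z, z ∈ v 1 ↔ z ∈ X1 ∧ ∃ b ∈ v 2, z ∈ b) 0 ?_
  refine DZ.ex (R := fun X1 v => (∀ z, ZFSet.pair (v 0) z ∈ R ↔ z = X1) ∧
    ∀ z, z ∈ v 2 ↔ z ∈ X1 ∧ ∃ b ∈ v 3, z ∈ b) ?_
  refine DZ.and ?_ ?_
  · refine DZ.all (R := fun z v => ZFSet.pair (v 1) z ∈ R ↔ z = v 0) ?_
    exact (DZ.od (R := fun r v => ZFSet.pair (v 2) (v 0) ∈ r) hR (loc_pmem 3 1 0).dz).iff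
      (DZ.eq 0 1)
  · refine DZ.all (R := fun z v => z ∈ v 3 ↔ z ∈ v 0 ∧ ∃ b ∈ v 4, z ∈ b) ?_
    exact (DZ.mem 0 4).iff ((DZ.mem 0 1).and
      (DZ.exMem (R := fun b v => v 0 ∈ b) 5 (DZ.mem 1 0)))

theorem pf_CPA (h0 : T_EQA.{u}) : T_CPA.{u} := by
  intro δ hδ hA κ x hx hfew X hX hp
  obtain ⟨Z, hZ, hxZ, ν, hν, hs⟩ := h0 δ hδ hA κ x hx hfew
  obtain ⟨R, hR, hRX⟩ := (pf_pa x X).1 hp
  set B : ZFSet.{u} := ZFSet.prod (ZFSet.powerset κ.toZFSet) (ZFSet.powerset κ.toZFSet) with hB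
  refine ⟨ZFSet.sep (fun p => ∃ w Y, p = ZFSet.pair w Y ∧ Cp Z R w Y) (V_ B.rank),
    od_sep (HD.NF.od_V _) (cp_dz hZ hR), ?_, ?_⟩
  · intro w
    classical
    obtain ⟨e, he⟩ := hs
    refine ⟨ν, hν, fun a => if h : ∃ X1, ∀ z, ZFSet.pair (e a) z ∈ R ↔ z = X1 then
      ZFSet.sep (fun z => ∃ b ∈ w, z ∈ b) h.choose else ∅, fun Y hY => ?_⟩
    obtain ⟨-, w', Y', h1, x1, hx1, X1, h2, h3⟩ := ZFSet.mem_sep.1 hY
    obtain ⟨rfl, rfl⟩ := ZFSet.pair_injective h1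
    obtain ⟨a, ha, rfl⟩ := he x1 hx1
    refine ⟨a, ha, ?_⟩
    have h4 : ∃ X1, ∀ z, ZFSet.pair (e a) z ∈ R ↔ z = X1 := ⟨X1, h2⟩
    have h5 : h4.choose = X1 := (h2 _).1 ((h4.choose_spec _).2 rfl)
    simp only [h4, dif_pos]
    refine ZFSet.ext fun z => ?_
    rw [ZFSet.mem_sep, h5]
    exact h3 z
  · intro a ha _
    have hsub : x ∩ (succ a).toZFSet ⊆ κ.toZFSet := fun z hz => hx (ZFSet.mem_inter.1 hz).1
    have hsub2 : X ∩ a.toZFSet ⊆ κ.toZFSet := fun z hz => hX (ZFSet.mem_inter.1 hz).1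
    rw [ZFSet.mem_sep]
    refine ⟨?_, _, _, rfl, x, hxZ, X, hRX, fun z => ?_⟩
    · rw [ZFSet.mem_vonNeumann]
      refine ZFSet.rank_lt_of_mem ?_
      rw [hB, ZFSet.pair_mem_prod]
      exact ⟨ZFSet.mem_powerset.2 hsub, ZFSet.mem_powerset.2 hsub2⟩
    · rw [ZFSet.mem_inter]
      refine and_congr_right fun _ => ?_
      constructor
      · intro hz
        exact ⟨a.toZFSet, ZFSet.mem_inter.2 ⟨ha, toZFSet_mem_toZFSet_iff.2 (lt_succ a)⟩, hz⟩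
      · rintro ⟨b, hb, hz⟩
        obtain ⟨-, hb2⟩ := ZFSet.mem_inter.1 hb
        obtain ⟨b, hb3, rfl⟩ := mem_toZFSet_iff.1 hb2
        obtain ⟨c, hc, rfl⟩ := mem_toZFSet_iff.1 hz
        exact toZFSet_mem_toZFSet_iff.2 (hc.trans_le (lt_succ_iff.1 hb3))

end Pool.Agent.H12.PRP
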